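import Pool.Agent.Helper73.F2.St

/-!
# Project F2 (MP_7b75b3_co), module UNI: uniqueness along sequences
-/

set_option autoImplicit false

namespace Pool.Agent.Helper19.F2

open _root_.F2 Finset

theorem hUNI : StUNI := by
  intro hXCH V κ _ _ _ _ G b k
  induction k using Nat.strong_induction_on with
  | _ k ih =>
    intro X hX B h0 h x hx hbx
    rcases Nat.eq_zero_or_pos k with rfl | hk
    · exact (hXCH V κ G b X hX x hx (by rw [hbx]; exact h0)).1
    by_cases hrep : ∃ i, 1 ≤ i ∧ i ≤ k ∧ B i = B 0
    · obtain ⟨i, hi1, hik, hBi⟩ := hrep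
      refine ih (k - i) (by omega) X hX (fun j => B (i + j)) ?_ ?_ x hx ?_
      · simpa [hBi] using h0
      · intro j hj
        obtain ⟨x', hx', hb', y', hr', hy'⟩ := h (i + j) (by omega)
        exact ⟨x', hx', hb', y', hr', by rw [hy']; rfl⟩
      · have e : i + (k - i) = k := by omega
        simp only [e]
        exact hbx
    · push Not at hrep
      obtain ⟨x₁, hx₁, hb₁, y, hry, hby⟩ := h 0 hk
      have h2 : 2 ≤ mul b X (b x₁) := by rw [hb₁]; exact h0
      obtain ⟨hU1, hM1⟩ := hXCH V κ G b X hX x₁ hx₁ h2
      have hX' := hM1 y hry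
      have hB1 : B 1 ≠ B 0 := hrep 1 le_rfl hk
      have hyx : y ≠ x₁ := by
        intro he
        apply hB1
        rw [← hb₁, ← he, hby]
      have hyX : y ∉ X := fun hy => hyx (hU1.2 y hy hry)
      have hmem : ∀ z ∈ X, b z ≠ B 0 → z ∈ insert y (X.erase x₁) := by
        intro z hz hbz
        refine Finset.mem_insert_of_mem (Finset.mem_erase.2 ⟨?_, hz⟩)
        intro he
        exact hbz (by rw [he, hb₁])
      have h3 : 2 ≤ mul b (insert y (X.erase x₁)) (B 1) := by
        obtain ⟨z, hz, hbz⟩ := hX.1.hit (B 1)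
        have hzX' := hmem z hz (by rw [hbz]; exact hB1)
        unfold mul
        refine Finset.one_lt_card.2 ⟨y, ?_, z, ?_, ?_⟩
        · exact Finset.mem_filter.2 ⟨Finset.mem_insert_self _ _, hby⟩
        · exact Finset.mem_filter.2 ⟨hzX', hbz⟩
        · intro he
          exact hyX (he ▸ hz)
      have hxB : b x ≠ B 0 := by
        rw [hbx]
        exact hrep k hk le_rfl
      have hU := ih (k - 1) (by omega) (insert y (X.erase x₁)) hX' (fun j => B (1 + j)) h3
        (by
          intro i hi
          obtain ⟨x', hx', hb', y', hr', hy'⟩ := h (1 + i) (by omega)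
          refine ⟨x', hmem x' hx' ?_, hb', y', hr', by rw [hy']; rfl⟩
          rw [hb']
          exact hrep (1 + i) (by omega) (by omega)) x (hmem x hx hxB)
        (by
          have e : 1 + (k - 1) = k := by omega
          simp only [e]
          exact hbx)
      refine ⟨hU.1, fun z hz hrz => ?_⟩
      by_cases hzx : z = x₁
      · have hrxy : G.Reachable x y := by
          rw [hzx] at hrz
          exact hrz.trans hry
        have hyx' := hU.2 y (Finset.mem_insert_self _ _) hrxy
        exact absurd (hyx' ▸ hx) hyX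
      · exact hU.2 z (Finset.mem_insert_of_mem (Finset.mem_erase.2 ⟨hzx, hz⟩)) hrz

end Pool.Agent.Helper19.F2
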